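import Pool.Agent.X119.Cnt

set_option autoImplicit false

/-!
# The ratios `R_h(p)` for all lengths `h` simultaneously, at almost all primes of every short interval

Let `R_h(x) = (log x / h) (π(x + h) - π(x))`, `0 < θ ≤ 1` and `ε > 0`. There is `C` such that for every `η > 0`,
all large `X` and all `X ^ θ ≤ Y ≤ X` all but at most `ε Y / log X` of the primes `p` in `(X, X + Y]` have the
following properties: `1 / C ≤ R_h(p) ≤ C` for ALL real lengths `C log X ≤ h ≤ Y` simultaneously; in particular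
for `h = (log p) ^ a` for ALL real exponents `a ≥ 1 + η` with `(log p) ^ a ≤ Y`.
-/

namespace Pool.Agent.Results.MP_b09185_nt.AllExponentsAtOnce

open Finset Filter

/-- The ratio `R_h(x) = (log x / h) (π(x + h) - π(x))`. -/
noncomputable def R (h x : ℝ) : ℝ :=
  Real.log x / h * ((Nat.primeCounting ⌊x + h⌋₊ : ℝ) - Nat.primeCounting ⌊x⌋₊)

lemma ratio {C : ℝ} (hC : 1 ≤ C) {X Y p : ℕ} (hX : 1 ≤ Real.log X) (h : Pool.Agent.X119.PWin.Nice C X Y p)
    (hp1 : X < p) (hp2 : p ≤ X + Y) (hYX : Y ≤ X) {t : ℝ} (ht : 4 * C * Real.log X ≤ t) (htY : t ≤ Y) :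
    1 / (4 * C) ≤ R t p ∧ R t p ≤ 4 * C := by
  have hL0 : 0 < Real.log X := by linarith
  have hC0 : 0 < C := by linarith
  have ht0 : 0 < t := lt_of_lt_of_le (by positivity) ht
  have ht4 : 4 ≤ t := by nlinarith
  have hX0 : 0 < X := by
    rcases Nat.eq_zero_or_pos X with rfl | hx
    · simp at hX
      linarith
    · exact hx
  have hXr : (0 : ℝ) < X := by exact_mod_cast hX0
  have hpr : (X : ℝ) < p := by exact_mod_cast hp1
  have hpr2 : (p : ℝ) ≤ 2 * X := by
    have : p ≤ 2 * X := by omega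
    exact_mod_cast this
  have hX2 : (2 : ℝ) ≤ X := by
    by_contra hc
    push Not at hc
    have h1 : Real.log X < Real.log 2 := Real.log_lt_log hXr hc
    have h2 : Real.log 2 < 1 := by
      have := Real.log_two_lt_d9
      linarith
    linarith
  have hlp1 : Real.log X ≤ Real.log p := Real.log_le_log hXr hpr.le
  have hlp2 : Real.log p ≤ 2 * Real.log X := by
    have h1 : Real.log p ≤ Real.log ((X : ℝ) ^ 2) := Real.log_le_log (by linarith) (by nlinarith)
    rw [Real.log_pow] at h1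
    push_cast at h1
    linarith
  obtain ⟨H, hH⟩ : ∃ H : ℕ, H = ⌊t⌋₊ := ⟨_, rfl⟩
  have hH1 : (H : ℝ) ≤ t := by rw [hH]; exact Nat.floor_le ht0.le
  have hH2 : t < H + 1 := by rw [hH]; exact Nat.lt_floor_add_one _
  have hH3 : t / 2 ≤ H := by linarith
  have hHY : H ≤ Y := by
    have : (H : ℝ) ≤ Y := hH1.trans htY
    exact_mod_cast this
  have hfl : ⌊(p : ℝ) + t⌋₊ = p + H := by
    rw [hH, add_comm (p : ℝ) t, Nat.floor_add_natCast ht0.le, add_comm]
  have hR : R t p = Real.log p / t * ((Ioc p (p + H)).filter Nat.Prime).card := by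
    unfold R
    rw [hfl, Nat.floor_natCast, Pool.Agent.X119.Cnt.pi_sub]
  obtain ⟨h1, h2⟩ := Pool.Agent.X119.Cnt.count_bounds hC hX h (by linarith : 2 * C * Real.log X ≤ H) hHY
    ((Ioc p (p + H)).filter Nat.Prime) (Or.inl rfl)
  rw [hR]
  have hlt : 0 < Real.log p / t := by
    have : 0 < Real.log p := by linarith
    positivity
  constructor
  · calc 1 / (4 * C) = Real.log X / t * ((t / 2) / (2 * C * Real.log X)) := by field_simp; ring
      _ ≤ Real.log p / t * (H / (2 * C * Real.log X)) := by gcongr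
      _ ≤ _ := by gcongr
  · calc Real.log p / t * (((Ioc p (p + H)).filter Nat.Prime).card : ℝ) ≤
        Real.log p / t * (C * H / Real.log X) := by gcongr
      _ ≤ (2 * Real.log X) / t * (C * t / Real.log X) := by gcongr
      _ = 2 * C := by field_simp
      _ ≤ 4 * C := by linarith

open Classical in
/-- **All lengths and all exponents simultaneously.** -/
theorem result (θ : ℝ) (hθ : 0 < θ) (hθ1 : θ ≤ 1) (ε : ℝ) (hε : 0 < ε) :
    ∃ C : ℝ, 1 ≤ C ∧ ∀ η : ℝ, 0 < η → ∀ᶠ X : ℕ in atTop, ∀ Y : ℕ, (X : ℝ) ^ θ ≤ Y → Y ≤ X →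
      (((Ioc X (X + Y)).filter (fun p : ℕ => p.Prime ∧ ¬ (
        (∀ h : ℝ, C * Real.log X ≤ h → h ≤ Y → 1 / C ≤ R h p ∧ R h p ≤ C) ∧
        ∀ a : ℝ, 1 + η ≤ a → Real.log p ^ a ≤ Y →
          1 / C ≤ R (Real.log p ^ a) p ∧ R (Real.log p ^ a) p ≤ C))).card : ℝ) ≤ ε * Y / Real.log X := by
  obtain ⟨C, hC, h⟩ := Pool.Agent.X119.PWin.steps θ hθ hθ1 ε hε
  refine ⟨4 * C, by linarith, fun η hη => ?_⟩
  have hlogX : Tendsto (fun X : ℕ => Real.log (X : ℝ)) atTop atTop :=
    Real.tendsto_log_atTop.comp tendsto_natCast_atTop_atTop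
  have hlη : ∀ᶠ X : ℕ in atTop, 4 * C ≤ Real.log X ^ η :=
    ((tendsto_rpow_atTop hη).comp hlogX).eventually_ge_atTop _
  filter_upwards [h, hlogX.eventually_ge_atTop 1, hlη] with X hX hlog hη2 Y hXY hYX
  refine le_trans (Nat.cast_le.2 ?_) (hX Y hXY hYX)
  apply card_le_card
  intro p hp
  rw [mem_filter] at hp ⊢
  obtain ⟨hp1, hp2, hp3⟩ := hp
  refine ⟨hp1, hp2, fun hN => hp3 ?_⟩
  rw [mem_Ioc] at hp1
  have key : ∀ t : ℝ, 4 * C * Real.log X ≤ t → t ≤ Y → 1 / (4 * C) ≤ R t p ∧ R t p ≤ 4 * C :=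
    fun t h1 h2 => ratio hC hlog hN hp1.1 hp1.2 hYX h1 h2
  refine ⟨key, fun a ha haY => key _ ?_ haY⟩
  have hX0 : 0 < X := by
    rcases Nat.eq_zero_or_pos X with rfl | hx
    · simp at hlog
      linarith
    · exact hx
  have hlp1 : Real.log X ≤ Real.log p :=
    Real.log_le_log (by exact_mod_cast hX0) (by exact_mod_cast hp1.1.le)
  calc 4 * C * Real.log X ≤ Real.log X ^ η * Real.log X := by gcongr
    _ = Real.log X ^ (1 + η) := by
        rw [Real.rpow_add (by linarith), Real.rpow_one]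
        ring
    _ ≤ Real.log p ^ (1 + η) := by
        apply Real.rpow_le_rpow (by linarith) hlp1 (by linarith)
    _ ≤ Real.log p ^ a := Real.rpow_le_rpow_of_exponent_le (by linarith) ha

end Pool.Agent.Results.MP_b09185_nt.AllExponentsAtOnce
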