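import Pool.Agent.X30.Met4

set_option autoImplicit false

/-!
# Maier's phenomenon at the multiples of almost every real number, at several scales at once

For `B > 0` let `D_B(n)` be the number of primes in `(n, n + (log n)^B]` divided by its mean order `(log n)^(B-1)` (this is the
quantity `R_h(n)` of the problem for `h = (log n)^B`). In Cramér's model `D_B(n)` tends to `1` for `B > 2`, so that every combination `c_1 D_(B_1)(n) + ... + c_k D_(B_k)(n)` with coefficient sum
zero tends to `0`. Here: for every `δ > 0` this fails at the multiples of almost every real number `x`, and already among the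
first `Y^δ` multiples of `x ≈ Y`: for all `x ∈ [Y, 2Y]` outside a set of measure `Y^(1-κ)` and ALL `K ≥ Y^δ` the combination
is at least a constant `η > 0` at `n = ⌊k x⌋` for at least `K exp (-(log K)^ε)` of the `k ≤ K`. (With `-c` for `c`: it is at most
`-η` for as many `k`.)

Two ingredients: the frequency `N exp (-(log N)^ε)` of such `n` among all integers (`MP_ff81b6_nt.ContrastsBetweenScales`, by a
Maier matrix modulo the primes of one short block), and a general theorem on the multiples of almost all real numbers in an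
ARBITRARY set `A` of integers (`Pool.Agent.X30.Met.all_ranges`): outside a set of `x ∈ [Y, 2Y]` of measure `Y^(1-κ)`, for
all `K ≥ Y^δ` the number of `k ≤ K` with `⌊k x⌋ ∈ A` is `|A ∩ [1, K x]| / x` with an error at most `K^(1-κ)`. It is
derived from `Pool.Agent.H438R2.DL.pairs_asymp` of the starting library (helper438).
-/

open MeasureTheory

namespace Pool.Agent.Results.MP_b09185_nt.ContrastsAtMultiples

/-- The number of primes `p` with `n < p ≤ n + (log n)^B`, divided by `(log n)^(B-1)`. -/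
noncomputable def density (B : ℝ) (n : ℕ) : ℝ :=
  (((Finset.Ioc n ⌊(n : ℝ) + (Real.log n) ^ B⌋₊).filter Nat.Prime).card : ℝ) / (Real.log n) ^ (B - 1)

theorem result (k : ℕ) (B c : Fin k → ℝ) (hB : ∀ i, 0 < B i) (hinj : Function.Injective B) (hc : c ≠ 0)
    (hsum : ∑ i, c i = 0) (δ ε : ℝ) (hδ : 0 < δ) (hδ1 : δ ≤ 1) (hε : 0 < ε) :
    ∃ η κ : ℝ, 0 < η ∧ 0 < κ ∧ ∃ Y₀ : ℝ, ∀ Y : ℝ, Y₀ ≤ Y →
      ∃ E : Set ℝ, MeasurableSet E ∧ volume E ≤ ENNReal.ofReal (Y ^ (1 - κ)) ∧
      ∀ x : ℝ, Y ≤ x → x ≤ 2 * Y → x ∉ E → ∀ K : ℕ, Y ^ δ ≤ K →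
        (K : ℝ) * Real.exp (-(Real.log K) ^ ε) ≤
          ({j : ℕ | 1 ≤ j ∧ j ≤ K ∧ η ≤ ∑ i, c i * density (B i) ⌊(j : ℝ) * x⌋₊}.ncard : ℝ) := by
  obtain ⟨η, κ, hη, hκ, Y₀, hY₀1, h⟩ := Pool.Agent.X30.Met.contrasts k B c hB hinj hc hsum δ ε hδ hδ1 hε
  refine ⟨η, κ, hη, hκ, Y₀, fun Y hY => ?_⟩
  obtain ⟨E, hE1, hE2, hE3⟩ := h Y hY
  refine ⟨E, hE1, hE2, fun x hx1 hx2 hxE K hK => (hE3 x hx1 hx2 hxE K hK).trans (le_of_eq ?_)⟩
  rw [← Set.ncard_coe_finset]
  congr 2
  ext j
  classical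
  unfold Pool.Agent.X30.Met.mult
  rw [Finset.mem_coe, Finset.mem_filter, Finset.mem_Icc, and_assoc]
  exact Iff.rfl

end Pool.Agent.Results.MP_b09185_nt.ContrastsAtMultiples
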