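import Mathlib
import Pool.Agent.X26.JF.Fin

/-!
# The limits of `U_a` and `L_a` exist and are the constants of persistent deviations

Let `U_a` and `L_a` be the upper and the lower limit of `R_h(x)` for `h(x) = (log x) ^ a`. The limits `u = lim U_a` and
`l = lim L_a` for `a → ∞` exist, `0 ≤ l ≤ 1 ≤ u ≤ ∞`, and `U_a ≥ u`, `L_a ≤ l` for all `a ≥ 1`. The number `u` is the
exact threshold for persistent deviations: for every `s < u` and every `N` there are arbitrarily large `n` such that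
`(n, n + h]` contains at least `s h / log n` primes for ALL `1 ≤ h ≤ log ^ N n` at once, and for every `s > u` there is
`N` for which this happens for no `n ≥ N`. The number `u` is also the uniform constant: for `s > u` there is `N` with
`π(x + y) - π(x) ≤ s y / log x` for all `x ≥ N` and `log ^ N x ≤ y ≤ x`. Similarly for `l`. The assertion of the
problem holds if and only if `u = l = 1`.
-/

set_option autoImplicit false

namespace Pool.Agent.Results.MP_b09185_nt.LimitsArePersistent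

open Filter Topology

/-- `R_h(x)` for `h(x) = (log x) ^ a` -/
noncomputable def R (a x : ℝ) : ℝ := Real.log x / Real.log x ^ a *
  ((Nat.primeCounting ⌊x + Real.log x ^ a⌋₊ : ℝ) - (Nat.primeCounting ⌊x⌋₊ : ℝ))

/-- `U_a`, the upper limit of `R_h(x)` for `h(x) = (log x) ^ a`, in `[-∞, ∞]` -/
noncomputable def U (a : ℝ) : EReal := limsup (fun x : ℝ => ((R a x : ℝ) : EReal)) atTop

/-- `L_a`, the lower limit of `R_h(x)` for `h(x) = (log x) ^ a`, in `[-∞, ∞]` -/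
noncomputable def L (a : ℝ) : EReal := liminf (fun x : ℝ => ((R a x : ℝ) : EReal)) atTop

/-- the number of the primes in `(n, n + h]` -/
def primes (n h : ℕ) : ℕ := ((Finset.Ioc n (n + h)).filter Nat.Prime).card

/-- There are `u`, `l` with `0 ≤ l ≤ 1 ≤ u` and:
1. `U_a → u` and `L_a → l` for real `a → ∞`, and `U_a ≥ u`, `L_a ≤ l` for all `a ≥ 1`;
2. for all real `s < u` and all `N` there are arbitrarily large `n` with at least `s h / log n` primes in `(n, n + h]` for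
  all `1 ≤ h ≤ log ^ N n`, and for all real `s > u` there is `N` such that no `n ≥ N` has this property for `N`;
3. for all real `s > l` and all `N` there are arbitrarily large `n` with at most `s h / log n` primes in `(n, n + h]` for
  all `1 ≤ h ≤ log ^ N n`, and for all real `s < l` there is `N` such that no `n ≥ N` has this property for `N`;
4. for all real `s > u` there is `N` with `π(x + y) - π(x) ≤ s y / log x` for all real `x ≥ N` and `log ^ N x ≤ y ≤ x`;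
5. for all real `s < l` there is `N` with `π(x + y) - π(x) ≥ s y / log x` for all real `x ≥ N` and `log ^ N x ≤ y ≤ x`;
6. the assertion of the problem holds if and only if `u = 1` and `l = 1`. -/
theorem result : ∃ u l : EReal, 0 ≤ l ∧ l ≤ 1 ∧ 1 ≤ u ∧
    Tendsto U atTop (𝓝 u) ∧ Tendsto L atTop (𝓝 l) ∧ (∀ a : ℝ, 1 ≤ a → u ≤ U a ∧ L a ≤ l) ∧
    (∀ s : ℝ, (s : EReal) < u → ∀ N : ℕ, ∃ᶠ n : ℕ in atTop, ∀ h : ℕ, 1 ≤ h → (h : ℝ) ≤ Real.log n ^ N →
      s * h / Real.log n ≤ (primes n h : ℝ)) ∧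
    (∀ s : ℝ, u < (s : EReal) → ∃ N : ℕ, ∀ n : ℕ, N ≤ n → ∃ h : ℕ, 1 ≤ h ∧ (h : ℝ) ≤ Real.log n ^ N ∧
      (primes n h : ℝ) < s * h / Real.log n) ∧
    (∀ s : ℝ, l < (s : EReal) → ∀ N : ℕ, ∃ᶠ n : ℕ in atTop, ∀ h : ℕ, 1 ≤ h → (h : ℝ) ≤ Real.log n ^ N →
      (primes n h : ℝ) ≤ s * h / Real.log n) ∧
    (∀ s : ℝ, (s : EReal) < l → ∃ N : ℕ, ∀ n : ℕ, N ≤ n → ∃ h : ℕ, 1 ≤ h ∧ (h : ℝ) ≤ Real.log n ^ N ∧
      s * h / Real.log n < (primes n h : ℝ)) ∧
    (∀ s : ℝ, u < (s : EReal) → ∃ N : ℕ, ∀ x y : ℝ, (N : ℝ) ≤ x → Real.log x ^ N ≤ y → y ≤ x →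
      (Nat.primeCounting ⌊x + y⌋₊ : ℝ) - (Nat.primeCounting ⌊x⌋₊ : ℝ) ≤ s * (y / Real.log x)) ∧
    (∀ s : ℝ, (s : EReal) < l → ∃ N : ℕ, ∀ x y : ℝ, (N : ℝ) ≤ x → Real.log x ^ N ≤ y → y ≤ x →
      s * (y / Real.log x) ≤ (Nat.primeCounting ⌊x + y⌋₊ : ℝ) - (Nat.primeCounting ⌊x⌋₊ : ℝ)) ∧
    ((∀ ε : ℝ, 0 < ε → ∃ a₀ : ℝ, ∀ a : ℝ, a₀ ≤ a → ∀ᶠ x : ℝ in atTop, |R a x - 1| ≤ ε) ↔ u = 1 ∧ l = 1) :=
  ⟨Pool.Agent.X26.JF.uu, Pool.Agent.X26.JF.ll, Pool.Agent.X26.JF.ll_nonneg, Pool.Agent.X26.JF.ll_le_one,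
    Pool.Agent.X26.JF.one_le_uu, Pool.Agent.X26.JF.tendsto_UU.1, Pool.Agent.X26.JF.tendsto_LL.1,
    fun a ha => ⟨Pool.Agent.X26.JF.tendsto_UU.2 a ha, Pool.Agent.X26.JF.tendsto_LL.2 a ha⟩,
    fun _ hs N => Pool.Agent.X26.JF.persist_up hs N, fun _ hs => Pool.Agent.X26.JF.upD_of_gt hs,
    fun _ hs N => Pool.Agent.X26.JF.persist_dn hs N, fun _ hs => Pool.Agent.X26.JF.dnD_of_lt hs,
    fun _ hs => Pool.Agent.X26.JF.upC_of_gt hs, fun _ hs => Pool.Agent.X26.JF.dnC_of_lt hs,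
    Pool.Agent.X26.JF.J_iff⟩

end Pool.Agent.Results.MP_b09185_nt.LimitsArePersistent
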