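import Pool.Agent.X20.Tr.Maier

/-!
# Maier's phenomenon along `⌊α n ^ c⌋`

The intervals of all lengths up to an arbitrary power of the logarithm which start at `⌊α n ^ c⌋` contain too many
(too few) primes for almost a full power of the `n ≤ M`, for every `c > 1` and all `α` outside a set of Hausdorff
dimension less than one.
From Mathlib: `dimH E`: the Hausdorff dimension; `⌊x⌋₊`: the integer part; `Finset.Icc 1 M`: the integers from `1` to
`M`; `Finset.Ico a b`, `Finset.Ioc a b`: the integers `a ≤ q < b`, `a < q ≤ b`.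
-/

set_option autoImplicit false

namespace Pool.Agent.Results.MP_b09185_nt.MaierAlongDilatedPowers

open Finset

/-- `m` is a prime and for EVERY length `1 ≤ h ≤ (log m) ^ N` the interval `[m, m + h)` contains at least
`(1 + δ) h / log m` primes. -/
def ManyPrimes (δ : ℝ) (N m : ℕ) : Prop := m.Prime ∧ ∀ h : ℕ, 1 ≤ h → (h : ℝ) ≤ (Real.log m) ^ N →
  (1 + δ) * h / Real.log m ≤ (((Ico m (m + h)).filter Nat.Prime).card : ℝ)

/-- For EVERY length `1 ≤ h ≤ (log m) ^ N` the interval `(m, m + h]` contains at most `(1 - δ) h / log m` primes. -/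
def FewPrimes (δ : ℝ) (N m : ℕ) : Prop := ∀ h : ℕ, 1 ≤ h → (h : ℝ) ≤ (Real.log m) ^ N →
  (((Ioc m (m + h)).filter Nat.Prime).card : ℝ) ≤ (1 - δ) * h / Real.log m

open Classical in
/-- For every real `c > 1` there are `κ > 0` and a set `E` of real numbers of Hausdorff dimension at most `1 - κ`
such that for every real `α > 0` outside `E`, every `N` and every `ε > 0` there are `δ > 0` and `M₀` such that for all
`M ≥ M₀` at least `M exp (-(log M) ^ ε)` of the `n ≤ M` have the property `ManyPrimes δ N ⌊α n ^ c⌋`, and at least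
`M exp (-(log M) ^ ε)` of the `n ≤ M` have the property `FewPrimes δ N ⌊α n ^ c⌋`. -/
theorem result (c : ℝ) (hc : 1 < c) : ∃ κ : ℝ, 0 < κ ∧ κ < 1 ∧ ∃ E : Set ℝ, dimH E ≤ ENNReal.ofReal (1 - κ) ∧
    ∀ α : ℝ, 0 < α → α ∉ E → ∀ (N : ℕ) (ε : ℝ), 0 < ε → ∃ δ : ℝ, 0 < δ ∧ ∃ M₀ : ℕ, ∀ M : ℕ, M₀ ≤ M →
      (M : ℝ) * Real.exp (-(Real.log M) ^ ε) ≤
        (((Icc 1 M).filter (fun n : ℕ => ManyPrimes δ N ⌊α * (n : ℝ) ^ c⌋₊)).card : ℝ) ∧
      (M : ℝ) * Real.exp (-(Real.log M) ^ ε) ≤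
        (((Icc 1 M).filter (fun n : ℕ => FewPrimes δ N ⌊α * (n : ℝ) ^ c⌋₊)).card : ℝ) :=
  Pool.Agent.X20.Tr.Mai.main c hc

end Pool.Agent.Results.MP_b09185_nt.MaierAlongDilatedPowers
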